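import Pool.Agent.U762.RP.Stm

set_option autoImplicit false

/-!
# Project RP, package DET: the deterministic end game
-/

namespace Pool.Agent.U898.RP.DET

open Pool.Agent.U762.RP Finset

section Abstract

variable {α : Type*} (f : α → α)

/-- the orbit -/
def orb (x : α) : Set α := Set.range fun i : ℕ => f^[i] x

lemma iter_mem_orb (x : α) (i : ℕ) : f^[i] x ∈ orb f x := ⟨i, rfl⟩

/-- if `f^[a] x = f^[b] x`, `a < b`, then every point of the orbit is `f^[i] x` with `i < b` -/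
lemma orb_subset_of_eq (x : α) (a b : ℕ) (hab : a < b) (h : f^[a] x = f^[b] x) :
    orb f x ⊆ (fun i : ℕ => f^[i] x) '' (Set.Iio b) := by
  have key : ∀ i : ℕ, ∃ j : ℕ, j < b ∧ f^[j] x = f^[i] x := by
    intro i
    induction i using Nat.strong_induction_on with
    | _ i ih =>
      by_cases hi : i < b
      · exact ⟨i, hi, rfl⟩
      · have hib : b ≤ i := not_lt.mp hi
        obtain ⟨j, hj, hj'⟩ := ih (i - b + a) (by omega)
        refine ⟨j, hj, ?_⟩
        rw [hj']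
        have e1 : f^[i - b + a] x = f^[i - b] (f^[a] x) := Function.iterate_add_apply f _ _ _
        have e2 : f^[i - b + b] x = f^[i - b] (f^[b] x) := Function.iterate_add_apply f _ _ _
        rw [e1, h, ← e2, Nat.sub_add_cancel hib]
  rintro _ ⟨i, rfl⟩
  obtain ⟨j, hj, hj'⟩ := key i
  exact ⟨j, hj, hj'⟩

lemma orb_finite_of_eq (x : α) (a b : ℕ) (hab : a < b) (h : f^[a] x = f^[b] x) :
    (orb f x).Finite ∧ (orb f x).ncard ≤ b := by
  have hs := orb_subset_of_eq f x a b hab h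
  have hf : ((fun i : ℕ => f^[i] x) '' (Set.Iio b)).Finite := (Set.finite_Iio b).image _
  refine ⟨hf.subset hs, ?_⟩
  calc (orb f x).ncard ≤ ((fun i : ℕ => f^[i] x) '' (Set.Iio b)).ncard := Set.ncard_le_ncard hs hf
    _ ≤ (Set.Iio b).ncard := Set.ncard_image_le (Set.finite_Iio b)
    _ = b := by
      rw [← Finset.coe_Iio, Set.ncard_coe_finset, Nat.card_Iio]

lemma orb_subset_union (x : α) (i : ℕ) :
    orb f x ⊆ (fun j : ℕ => f^[j] x) '' (Set.Iio i) ∪ orb f (f^[i] x) := by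
  rintro _ ⟨j, rfl⟩
  by_cases h : j < i
  · exact Or.inl ⟨j, h, rfl⟩
  · refine Or.inr ⟨j - i, ?_⟩
    show f^[j - i] (f^[i] x) = f^[j] x
    rw [← Function.iterate_add_apply, Nat.sub_add_cancel (not_lt.mp h)]

lemma orb_card_le (x : α) (i : ℕ) (hfin : (orb f (f^[i] x)).Finite) :
    (orb f x).ncard ≤ i + (orb f (f^[i] x)).ncard := by
  have hs := orb_subset_union f x i
  have hf : ((fun j : ℕ => f^[j] x) '' (Set.Iio i)).Finite := (Set.finite_Iio i).image _
  calc (orb f x).ncard ≤ ((fun j : ℕ => f^[j] x) '' (Set.Iio i) ∪ orb f (f^[i] x)).ncard :=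
        Set.ncard_le_ncard hs (hf.union hfin)
    _ ≤ ((fun j : ℕ => f^[j] x) '' (Set.Iio i)).ncard + (orb f (f^[i] x)).ncard :=
        Set.ncard_union_le _ _
    _ ≤ i + (orb f (f^[i] x)).ncard := by
        gcongr
        calc ((fun j : ℕ => f^[j] x) '' (Set.Iio i)).ncard ≤ (Set.Iio i).ncard :=
              Set.ncard_image_le (Set.finite_Iio i)
          _ = i := by
            rw [← Finset.coe_Iio, Set.ncard_coe_finset, Nat.card_Iio]

/-- every point of a finite orbit with `N` elements is `f^[j] x` with `j < N` -/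
lemma exists_lt_card (x : α) (hfin : (orb f x).Finite) (i : ℕ) :
    ∃ j : ℕ, j < (orb f x).ncard ∧ f^[j] x = f^[i] x := by
  classical
  have hex : ∃ j : ℕ, f^[j] x = f^[i] x := ⟨i, rfl⟩
  refine ⟨Nat.find hex, ?_, Nat.find_spec hex⟩
  set k := Nat.find hex with hk
  have hinj : Set.InjOn (fun j : ℕ => f^[j] x) (Set.Iic k) := by
    have main : ∀ a b : ℕ, a < b → b ≤ k → f^[a] x = f^[b] x → False := by
      intro a b hab hb h
      have h1 : f^[k - b + a] x = f^[i] x := by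
        have e1 : f^[k - b + a] x = f^[k - b] (f^[a] x) := Function.iterate_add_apply f _ _ _
        have e2 : f^[k - b + b] x = f^[k - b] (f^[b] x) := Function.iterate_add_apply f _ _ _
        rw [e1, h, ← e2, Nat.sub_add_cancel hb]
        exact Nat.find_spec hex
      exact Nat.find_min hex (m := k - b + a) (by omega) h1
    intro a ha b hb h
    rcases lt_trichotomy a b with hab | hab | hab
    · exact (main a b hab hb h).elim
    · exact hab
    · exact (main b a hab ha h.symm).elim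
  have hsub : (fun j : ℕ => f^[j] x) '' (Set.Iic k) ⊆ orb f x := by
    rintro _ ⟨j, _, rfl⟩
    exact ⟨j, rfl⟩
  have h1 : ((fun j : ℕ => f^[j] x) '' (Set.Iic k)).ncard = k + 1 := by
    rw [Set.InjOn.ncard_image hinj, ← Finset.coe_Iic, Set.ncard_coe_finset, Nat.card_Iic]
  have h2 := Set.ncard_le_ncard hsub hfin
  omega

variable (L : α → ℕ) (F : Set α)

lemma orb_finite (hF : F.Finite)
    (h : ∀ x, x ∉ F → (∃ i, i ≤ L x ∧ f^[i] x ∈ F) ∨
      ∃ i j : ℕ, i < j ∧ j ≤ L x ∧ f^[i] x = f^[j] x) (x : α) : (orb f x).Finite := by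
  by_contra hinf
  have hinj : Function.Injective (fun i : ℕ => f^[i] x) := by
    intro a b hab
    rcases lt_trichotomy a b with h' | h' | h'
    · exact (hinf (orb_finite_of_eq f x a b h' hab).1).elim
    · exact h'
    · exact (hinf (orb_finite_of_eq f x b a h' hab.symm).1).elim
  have hfin : {i : ℕ | f^[i] x ∈ F}.Finite := hF.preimage hinj.injOn
  obtain ⟨N, hN⟩ := hfin.bddAbove
  have hy : ∀ i, f^[i] (f^[N + 1] x) ∉ F := by
    intro i hi
    rw [← Function.iterate_add_apply] at hi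
    have := hN hi
    omega
  rcases h (f^[N + 1] x) (hy 0) with ⟨i, _, hi⟩ | ⟨i, j, hij, _, he⟩
  · exact hy i hi
  · rw [← Function.iterate_add_apply, ← Function.iterate_add_apply] at he
    have := hinj he
    omega

lemma orb_card (hF : F.Finite)
    (h : ∀ x, x ∉ F → (∃ i, i ≤ L x ∧ f^[i] x ∈ F) ∨
      ∃ i j : ℕ, i < j ∧ j ≤ L x ∧ f^[i] x = f^[j] x) :
    ∃ D : ℕ, ∀ x, (orb f x).ncard ≤ L x + D := by
  classical
  refine ⟨∑ y ∈ hF.toFinset, (orb f y).ncard, ?_⟩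
  have hD : ∀ y ∈ F, (orb f y).ncard ≤ ∑ y ∈ hF.toFinset, (orb f y).ncard := by
    intro y hy
    exact Finset.single_le_sum (f := fun y => (orb f y).ncard) (fun _ _ => Nat.zero_le _)
      (hF.mem_toFinset.mpr hy)
  intro x
  by_cases hx : x ∈ F
  · have := hD x hx
    omega
  · rcases h x hx with ⟨i, hi, hi'⟩ | ⟨i, j, hij, hj, he⟩
    · have h1 := orb_card_le f x i (orb_finite f L F hF h _)
      have h2 := hD _ hi'
      omega
    · have h1 := (orb_finite_of_eq f x i j hij he).2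
      omega

end Abstract

/-- growth of the map -/
lemma growth (d : ℕ) (m r : ℤ → ℤ) (B : ℕ) (hd : 2 ≤ d) (ω : ℤ → ℤ) (hω : ∀ x, |ω x| ≤ B) (x : ℤ) :
    1 + |(stp d m r ω x : ℤ)| ≤
      (1 + ∑ j ∈ range d, (|m (j : ℤ)| + |r (j : ℤ)|) + B) * (1 + |x|) := by
  unfold stp T
  have hdpos : (0 : ℤ) < d := by exact_mod_cast (by omega : 0 < d)
  have h0 : 0 ≤ x % (d : ℤ) := Int.emod_nonneg _ hdpos.ne'
  have h1 : x % (d : ℤ) < d := Int.emod_lt_of_pos _ hdpos
  obtain ⟨j, hj⟩ : ∃ j : ℕ, (j : ℤ) = x % (d : ℤ) := ⟨(x % (d : ℤ)).toNat, Int.toNat_of_nonneg h0⟩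
  have hjd : j ∈ range d := by
    rw [Finset.mem_range]
    have : (j : ℤ) < d := by rw [hj]; exact h1
    exact_mod_cast this
  have hS : |m (j : ℤ)| + |r (j : ℤ)| ≤ ∑ j ∈ range d, (|m (j : ℤ)| + |r (j : ℤ)|) :=
    Finset.single_le_sum (f := fun j : ℕ => |m (j : ℤ)| + |r (j : ℤ)|)
      (fun _ _ => by positivity) hjd
  set S := ∑ j ∈ range d, (|m (j : ℤ)| + |r (j : ℤ)|) with hSdef
  rw [← hj]
  have a1 : |(m (j : ℤ) * x - r (j : ℤ)) / (d : ℤ)| ≤ |m (j : ℤ) * x - r (j : ℤ)| :=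
    Int.abs_ediv_le_abs _ _
  have a2 : |m (j : ℤ) * x - r (j : ℤ)| ≤ |m (j : ℤ)| * |x| + |r (j : ℤ)| := by
    calc |m (j : ℤ) * x - r (j : ℤ)| ≤ |m (j : ℤ) * x| + |r (j : ℤ)| := abs_sub _ _
      _ = _ := by rw [abs_mul]
  have a3 : |(m (j : ℤ) * x - r (j : ℤ)) / (d : ℤ) + ω x| ≤
      |(m (j : ℤ) * x - r (j : ℤ)) / (d : ℤ)| + |ω x| := abs_add_le _ _
  have a4 := hω x
  have hx : 0 ≤ |x| := abs_nonneg x
  have hm : 0 ≤ |m (j : ℤ)| := abs_nonneg _
  have hr : 0 ≤ |r (j : ℤ)| := abs_nonneg _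
  have hB : (0 : ℤ) ≤ B := by positivity
  have a5 : |m (j : ℤ)| * |x| + |r (j : ℤ)| ≤ (|m (j : ℤ)| + |r (j : ℤ)|) * (1 + |x|) := by
    nlinarith [mul_nonneg hr hx]
  have a6 : (|m (j : ℤ)| + |r (j : ℤ)|) * (1 + |x|) ≤ S * (1 + |x|) :=
    mul_le_mul_of_nonneg_right hS (by positivity)
  have a7 : (B : ℤ) ≤ B * (1 + |x|) := by nlinarith
  have a8 : (1 + S + B) * (1 + |x|) = (1 + |x|) + S * (1 + |x|) + B * (1 + |x|) := by ring
  rw [a8]
  linarith

lemma growth_iter (f : ℤ → ℤ) (A : ℤ) (hA : 1 ≤ A) (hf : ∀ x, 1 + |f x| ≤ A * (1 + |x|)) (x : ℤ) :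
    ∀ i : ℕ, 1 + |f^[i] x| ≤ A ^ i * (1 + |x|) := by
  intro i
  induction i with
  | zero => simp
  | succ i ih =>
    rw [Function.iterate_succ_apply']
    calc 1 + |f (f^[i] x)| ≤ A * (1 + |f^[i] x|) := hf _
      _ ≤ A * (A ^ i * (1 + |x|)) := mul_le_mul_of_nonneg_left ih (by linarith)
      _ = A ^ (i + 1) * (1 + |x|) := by ring

theorem t_DET : S_DET := by
  intro d m r B M c hd hc
  set S : ℤ := ∑ j ∈ range d, (|m (j : ℤ)| + |r (j : ℤ)|) with hS
  have hS0 : 0 ≤ S := Finset.sum_nonneg fun _ _ => by positivity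
  set A : ℤ := 1 + S + B with hAdef
  have hA1 : 1 ≤ A := by
    have : (0 : ℤ) ≤ B := by positivity
    omega
  have hAR : (1 : ℝ) ≤ (A : ℝ) := by exact_mod_cast hA1
  have hlogA : 0 ≤ Real.log (A : ℝ) := Real.log_nonneg hAR
  refine ⟨c + c * Real.log A + 1, by positivity, ?_⟩
  intro ω hω hfin
  set f : ℤ → ℤ := stp d m r ω with hf
  set L : ℤ → ℕ := fun x => ⌈c * Real.log (2 + |(x : ℝ)|)⌉₊ with hL
  set F : Set ℤ := {x : ℤ | Long d m r M (L x) x ω} ∪ {x : ℤ | |(x : ℝ)| < M} with hFdef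
  have hF2 : {x : ℤ | |(x : ℝ)| < M}.Finite := by
    refine (Set.finite_Icc (-⌈M⌉) ⌈M⌉).subset ?_
    intro x hx
    have hx' : |(x : ℝ)| < M := hx
    rw [abs_lt] at hx'
    constructor
    · have : ((-⌈M⌉ : ℤ) : ℝ) ≤ x := by
        push_cast
        have := Int.le_ceil M
        linarith [hx'.1]
      exact_mod_cast this
    · have : (x : ℝ) ≤ (⌈M⌉ : ℝ) := by
        have := Int.le_ceil M
        linarith [hx'.2]
      exact_mod_cast this
  have hF : F.Finite := hfin.union hF2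
  have hstep : ∀ x, x ∉ F → (∃ i, i ≤ L x ∧ f^[i] x ∈ F) ∨
      ∃ i j : ℕ, i < j ∧ j ≤ L x ∧ f^[i] x = f^[j] x := by
    intro x hx
    have hx1 : ¬ Long d m r M (L x) x ω := fun h => hx (Or.inl h)
    by_contra hcon
    push Not at hcon
    apply hx1
    refine ⟨?_, ?_⟩
    · intro i hi
      by_contra hlt
      exact hcon.1 i hi (Or.inr (not_le.mp hlt))
    · intro i j hij hj he
      exact hcon.2 i j hij hj he
  obtain ⟨D, hD⟩ := orb_card f L F hF hstep
  have hA0 : (0 : ℝ) < (A : ℝ) := by linarith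
  refine ⟨(A : ℝ) ^ (1 + D) + D + 1, ?_⟩
  intro x
  have hfinx := orb_finite f L F hF hstep x
  have hlog : 0 ≤ Real.log (2 + |(x : ℝ)|) := Real.log_nonneg (by linarith [abs_nonneg (x : ℝ)])
  have hLx : (L x : ℝ) ≤ c * Real.log (2 + |(x : ℝ)|) + 1 := by
    have := Nat.ceil_lt_add_one (a := c * Real.log (2 + |(x : ℝ)|)) (by positivity)
    exact this.le
  have hN : ((orb f x).ncard : ℝ) ≤ c * Real.log (2 + |(x : ℝ)|) + (1 + D : ℕ) := by
    have h1 : ((orb f x).ncard : ℝ) ≤ (L x : ℝ) + D := by exact_mod_cast hD x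
    push_cast
    linarith
  have hApow : (0 : ℝ) < (A : ℝ) ^ (1 + D) := by positivity
  refine ⟨hfinx, ?_, ?_⟩
  · show ((orb f x).ncard : ℝ) ≤ _
    push_cast at hN
    have h2 : 0 ≤ c * Real.log A * Real.log (2 + |(x : ℝ)|) := by positivity
    nlinarith
  · intro i
    obtain ⟨j, hj, hj'⟩ := exists_lt_card f x hfinx i
    rw [← hj']
    have hg := growth_iter f A hA1 (growth d m r B hd ω hω) x j
    have hgR : 1 + |((f^[j] x : ℤ) : ℝ)| ≤ (A : ℝ) ^ j * (1 + |(x : ℝ)|) := by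
      exact_mod_cast hg
    have hb : (1 : ℝ) ≤ 2 + |(x : ℝ)| := by linarith [abs_nonneg (x : ℝ)]
    have hb0 : (0 : ℝ) < 2 + |(x : ℝ)| := by linarith
    have hjR : (j : ℝ) ≤ c * Real.log (2 + |(x : ℝ)|) + (1 + D : ℕ) := by
      have : (j : ℝ) ≤ ((orb f x).ncard : ℝ) := by exact_mod_cast hj.le
      linarith
    have hpow : (A : ℝ) ^ j ≤ (2 + |(x : ℝ)|) ^ (c * Real.log A) * (A : ℝ) ^ (1 + D) := by
      calc (A : ℝ) ^ j = (A : ℝ) ^ (j : ℝ) := (Real.rpow_natCast _ _).symm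
        _ ≤ (A : ℝ) ^ (c * Real.log (2 + |(x : ℝ)|) + ((1 + D : ℕ) : ℝ)) :=
            Real.rpow_le_rpow_of_exponent_le hAR hjR
        _ = (A : ℝ) ^ (c * Real.log (2 + |(x : ℝ)|)) * (A : ℝ) ^ (((1 + D : ℕ) : ℝ)) :=
            Real.rpow_add hA0 _ _
        _ = (2 + |(x : ℝ)|) ^ (c * Real.log A) * (A : ℝ) ^ (1 + D) := by
            rw [Real.rpow_natCast, Real.rpow_def_of_pos hA0, Real.rpow_def_of_pos hb0]
            congr 2
            ring
    have hfinal : (A : ℝ) ^ j * (1 + |(x : ℝ)|) ≤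
        (A : ℝ) ^ (1 + D) * (2 + |(x : ℝ)|) ^ (c + c * Real.log A + 1) := by
      calc (A : ℝ) ^ j * (1 + |(x : ℝ)|)
          ≤ ((2 + |(x : ℝ)|) ^ (c * Real.log A) * (A : ℝ) ^ (1 + D)) * (2 + |(x : ℝ)|) := by
            apply mul_le_mul hpow (by linarith) (by positivity) (by positivity)
        _ = (A : ℝ) ^ (1 + D) * ((2 + |(x : ℝ)|) ^ (c * Real.log A) * (2 + |(x : ℝ)|) ^ (1 : ℝ)) := by
            rw [Real.rpow_one]; ring
        _ = (A : ℝ) ^ (1 + D) * (2 + |(x : ℝ)|) ^ (c * Real.log A + 1) := by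
            rw [Real.rpow_add hb0]
        _ ≤ (A : ℝ) ^ (1 + D) * (2 + |(x : ℝ)|) ^ (c + c * Real.log A + 1) := by
            apply mul_le_mul_of_nonneg_left _ hApow.le
            exact Real.rpow_le_rpow_of_exponent_le hb (by linarith)
    have hpos : (0 : ℝ) < (2 + |(x : ℝ)|) ^ (c + c * Real.log A + 1) := Real.rpow_pos_of_pos hb0 _
    have hD0 : (0 : ℝ) ≤ (D : ℝ) := Nat.cast_nonneg D
    have hlast : (A : ℝ) ^ (1 + D) * (2 + |(x : ℝ)|) ^ (c + c * Real.log A + 1) ≤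
        ((A : ℝ) ^ (1 + D) + D + 1) * (2 + |(x : ℝ)|) ^ (c + c * Real.log A + 1) :=
      mul_le_mul_of_nonneg_right (by linarith) hpos.le
    linarith

end Pool.Agent.U898.RP.DET
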